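import Pool.Agent.H62.Cont1

namespace Pool.Agent.Results.MP_50aa38_lc.NotFO
open Pool.Agent.H62.Cont

theorem result : ¬ ∃ T : L.Theory, ∀ (B : Type) [BooleanAlgebra B] (C : B → B → Prop),
    IsContact C → (Models C T ↔ Reg C) := by
  rintro ⟨T, hT⟩
  obtain ⟨B', _, C', h1, h2, h3⟩ := exists_sub contact_CC psi_CC
  exact not_reg ((hT _ _ contact_CC).1 ((h3 T).1 ((hT _ _ h1).2 h2)))

end Pool.Agent.Results.MP_50aa38_lc.NotFO
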